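import Mathlib

/-!
# Coarse embeddings of groups

`CoarseEmb f`: the map `f : A → Λ` of groups is a coarse embedding (for the left invariant coarse structures).
-/

set_option autoImplicit false

namespace Pool.Agent.H10.CI

/-- the map `f` (not necessarily a homomorphism) of groups is a coarse embedding: for `a ∈ A` the elements
`f(g)⁻¹ f(g a)` are finitely many, and for `x ∈ Λ` there are only finitely many `a` such that
`f(g)⁻¹ f(g a) = x` for some `g` -/
structure CoarseEmb {A Λ : Type} [Group A] [Group Λ] (f : A → Λ) : Prop where
  lip : ∀ a : A, {x : Λ | ∃ g : A, (f g)⁻¹ * f (g * a) = x}.Finite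
  prop : ∀ x : Λ, {a : A | ∃ g : A, (f g)⁻¹ * f (g * a) = x}.Finite

end Pool.Agent.H10.CI
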